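import Pool.Agent.Helper50.BP.St

/-! Project BP, module PAR: assembly of the parameters. -/

set_option autoImplicit false

namespace Pool.Agent.Helper53.BP

open Pool.Agent.Helper43.GD Pool.Agent.Helper73.BG Pool.Agent.Helper50.BP

/-- the full power of two -/
private lemma two_part (m : ℕ) (hm : m ≠ 0) : ∃ a m' : ℕ, m = 2 ^ a * m' ∧ ¬ 2 ∣ m' ∧
    ¬ 2 ^ (a + 1) ∣ m := by
  obtain ⟨a, m', h1, h2⟩ := Nat.exists_eq_pow_mul_and_not_dvd hm 2 (by norm_num)
  refine ⟨a, m', h2, h1, fun h3 => h1 ?_⟩
  rw [h2, pow_succ] at h3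
  exact Nat.dvd_of_mul_dvd_mul_left (by positivity) h3

/-- Module PAR. -/
theorem hPAR (hZS : StZS) (hDO : StDO) (hDT : StDT) (hDE : StDE) (hDF : StDF) : StPAR := by
  intro p inst n hp2 hn h4
  have hp : p.Prime := inst.out
  have hp3 : 3 ≤ p := by
    have := hp.two_le
    omega
  have hodd : p % 2 = 1 := hp.eq_two_or_odd.resolve_left hp2
  rcases Nat.lt_or_ge n 3 with hn3 | hn3
  · have hn12 : n = 1 ∨ n = 2 := by omega
    rcases hn12 with rfl | rfl
    · have h5 : 5 ≤ p := by
        rw [pow_one] at h4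
        have : p ≠ 4 := by
          rintro rfl
          norm_num at hp
        omega
      by_cases hr : ∃ r : ℕ, r.Prime ∧ 5 ≤ r ∧ r ∣ p - 1
      · obtain ⟨r, hr1, hr2, hr3⟩ := hr
        obtain ⟨l, k, h, hC, hD⟩ := hDO p 1 r hp2 le_rfl hr1 hr2 (by rwa [pow_one])
          (fun d h1 h2 => absurd h2 (by omega))
        exact ⟨l, k, h, Or.inl ⟨r, hC⟩, hD⟩
      · push Not at hr
        obtain ⟨a, m, hm1, hm2, hm3⟩ := two_part (p - 1) (by omega)
        have hm0 : m ≠ 0 := by
          rintro rfl
          rw [mul_zero] at hm1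
          omega
        obtain ⟨b, m', hb1, hb2⟩ := Nat.exists_eq_pow_mul_and_not_dvd hm0 3 (by norm_num)
        have hm' : m' = 1 := by
          by_contra hne
          obtain ⟨r, hr1, hr2⟩ := Nat.exists_prime_and_dvd hne
          have hrm : r ∣ m := by
            rw [hb2]
            exact Dvd.dvd.mul_left hr2 _
          have hrp : r ∣ p - 1 := by
            rw [hm1]
            exact Dvd.dvd.mul_left hrm _
          have h5' : ¬ 5 ≤ r := fun h => hr r hr1 h hrp
          have h2' := hr1.two_le
          have : r = 2 ∨ r = 3 ∨ r = 4 := by omega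
          rcases this with rfl | rfl | rfl
          · exact hm2 hrm
          · exact hb1 hr2
          · norm_num at hr1
        rw [hm', mul_one] at hb2
        rw [hb2] at hm1
        have ha1 : 1 ≤ a := by
          rcases Nat.eq_zero_or_pos a with rfl | h
          · exfalso
            apply hm2
            rw [pow_zero, one_mul, ← hb2] at hm1
            rw [← hm1]
            omega
          · exact h
        rcases Nat.lt_or_ge a 3 with ha | ha
        · rcases Nat.eq_zero_or_pos b with rfl | hb
          · rw [pow_zero, mul_one] at hm1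
            have hp5 : p = 5 := by
              have : a = 1 ∨ a = 2 := by omega
              rcases this with rfl | rfl
              · norm_num at hm1
                omega
              · norm_num at hm1
                omega
            subst hp5
            exact ⟨2, 1, 2, Or.inr (Or.inr ⟨rfl, rfl, rfl⟩), hDF inst⟩
          · obtain ⟨l, k, h, hC, hD⟩ := hDT p a b hm1 ha1 (by omega) hb
            exact ⟨l, k, h, Or.inl ⟨3, hC⟩, hD⟩
        · obtain ⟨l, k, h, hC, hD⟩ := hDE p 1 a le_rfl ha (by rw [pow_one, hm1]; exact ⟨_, rfl⟩)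
            (by rwa [pow_one]) (fun d h1 h2 => absurd h2 (by omega))
          exact ⟨l, k, h, Or.inr (Or.inl ⟨a, hC⟩), hD⟩
    · obtain ⟨q, rfl⟩ : ∃ q, p = q + 1 := ⟨p - 1, by omega⟩
      have hsq : (q + 1) ^ 2 - 1 = q * (q + 2) := by
        have : (q + 1) ^ 2 = q * (q + 2) + 1 := by ring
        omega
      obtain ⟨a, m, hm1, hm2, hm3⟩ := two_part ((q + 1) ^ 2 - 1) (by
        rw [hsq]
        have : 0 < q * (q + 2) := by
          have : 0 < q := by omega
          positivity
        omega)
      obtain ⟨j, hj⟩ : ∃ j, q = 2 * j := ⟨q / 2, by omega⟩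
      have h8 : ∃ c, (q + 1) ^ 2 - 1 = 8 * c := by
        rw [hsq, hj]
        rcases Nat.even_or_odd' j with ⟨i, hi | hi⟩
        · exact ⟨i * (2 * i + 1), by rw [hi]; ring⟩
        · exact ⟨(2 * i + 1) * (i + 1), by rw [hi]; ring⟩
      obtain ⟨c, hc⟩ := h8
      have ha : 3 ≤ a := by
        by_contra hlt
        apply hm2
        rw [hc] at hm1
        have : a = 0 ∨ a = 1 ∨ a = 2 := by omega
        rcases this with rfl | rfl | rfl <;> norm_num at hm1 <;> omega
      obtain ⟨l, k, h, hC, hD⟩ := hDE (q + 1) 2 a (by norm_num) ha (by rw [hm1]; exact ⟨_, rfl⟩)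
        hm3 (fun d h1 h2 => by
          have hd : d = 1 := by omega
          subst hd
          rw [pow_one, Nat.add_sub_cancel]
          intro hdv
          apply hm3
          rw [hsq, pow_succ]
          refine mul_dvd_mul hdv ?_
          omega)
      exact ⟨l, k, h, Or.inr (Or.inl ⟨a, hC⟩), hD⟩
  · obtain ⟨r, hr, hr5, hrd, hmin⟩ := hZS p n hp hp3 hn3
    obtain ⟨l, k, h, hC, hD⟩ := hDO p n r hp2 hn hr hr5 hrd hmin
    exact ⟨l, k, h, Or.inl ⟨r, hC⟩, hD⟩

end Pool.Agent.Helper53.BP
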